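import Mathlib
import Pool.Agent.H43.TC.Targets

set_option autoImplicit false

namespace Pool.Agent.H20.TC

open Pool.Agent.H43.TC

lemma bad_chain (P : ℤ → Prop) (t : ℕ) (h : ∀ i : ℤ, -(t : ℤ) ≤ i → i < t → (P i ↔ P (i + 1))) :
    ∀ m : ℕ, m ≤ t → (P m ↔ P 0) ∧ (P (-(m : ℤ)) ↔ P 0) := by
  intro m
  induction m with
  | zero => intro _; simp
  | succ m ih =>
    intro hm
    obtain ⟨h1, h2⟩ := ih (by omega)
    refine ⟨?_, ?_⟩
    · have h3 := h (m : ℤ) (by omega) (by omega)
      rw [Nat.cast_succ]
      exact h3.symm.trans h1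
    · have h3 := h (-((m + 1 : ℕ) : ℤ)) (by omega) (by omega)
      have e : -((m + 1 : ℕ) : ℤ) + 1 = -(m : ℤ) := by push_cast; ring
      rw [e] at h3
      exact h3.trans h2

lemma bad_val_card (N a : ℕ) [NeZero N] :
    (Finset.univ.filter (fun v : ZMod N => v.val = a)).card ≤ 1 := by
  rw [Finset.card_le_one]
  intro x hx y hy
  simp only [Finset.mem_filter, Finset.mem_univ, true_and] at hx hy
  exact ZMod.val_injective N (hx.trans hy.symm)

theorem bad : T_BAD := by
  classical
  intro k N L t _ i₀ hLN
  set D : Finset (ZMod N) :=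
    Finset.univ.filter (fun v => ¬ ((v.val < L) ↔ ((v + 1).val < L))) with hD
  have hDcard : D.card ≤ 2 := by
    have hsub : D ⊆ Finset.univ.filter (fun v : ZMod N => v.val = L - 1)
        ∪ Finset.univ.filter (fun v : ZMod N => v.val = N - 1) := by
      intro v hv
      rw [hD] at hv
      simp only [Finset.mem_filter, Finset.mem_univ, true_and] at hv
      simp only [Finset.mem_union, Finset.mem_filter, Finset.mem_univ, true_and]
      by_contra hcon
      push Not at hcon
      obtain ⟨hc1, hc2⟩ := hcon
      have hlt : v.val < N := ZMod.val_lt v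
      have hN1 : N ≠ 1 := by omega
      have h1 : (1 : ZMod N).val = 1 := ZMod.val_one'' hN1
      have h2 : (v + 1).val = v.val + 1 := by
        rw [ZMod.val_add, h1]
        exact Nat.mod_eq_of_lt (by omega)
      apply hv
      rw [h2]
      omega
    calc D.card ≤ _ := Finset.card_le_card hsub
      _ ≤ _ := Finset.card_union_le _ _
      _ ≤ 1 + 1 := Nat.add_le_add (bad_val_card N _) (bad_val_card N _)
  set U : Finset (ZMod N) := Finset.univ.filter (fun u => ∃ j : ℤ, |j| ≤ t ∧
    ¬ ((u + (j : ZMod N)).val < L ↔ u.val < L)) with hU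
  have hUsub : U ⊆ (D ×ˢ Finset.Ico (-(t : ℤ)) t).image (fun q => q.1 - ((q.2 : ℤ) : ZMod N)) := by
    intro u hu
    rw [hU] at hu
    simp only [Finset.mem_filter, Finset.mem_univ, true_and] at hu
    obtain ⟨j, hj, hne⟩ := hu
    by_contra hcon
    have hst : ∀ i : ℤ, -(t : ℤ) ≤ i → i < t →
        (((u + (i : ZMod N)).val < L) ↔ ((u + ((i + 1 : ℤ) : ZMod N)).val < L)) := by
      intro i hi1 hi2
      by_contra hn
      apply hcon
      rw [Finset.mem_image]
      refine ⟨(u + (i : ZMod N), i), ?_, by simp⟩
      rw [Finset.mem_product]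
      refine ⟨?_, Finset.mem_Ico.2 ⟨hi1, hi2⟩⟩
      rw [hD]
      simp only [Finset.mem_filter, Finset.mem_univ, true_and]
      have e : u + ((i + 1 : ℤ) : ZMod N) = u + (i : ZMod N) + 1 := by push_cast; ring
      rw [e] at hn
      exact hn
    have hch := bad_chain (fun i => (u + (i : ZMod N)).val < L) t hst j.natAbs
      (by have := abs_le.1 hj; omega)
    apply hne
    have e0 : u + ((0 : ℤ) : ZMod N) = u := by simp
    rcases Int.natAbs_eq j with hj' | hj'
    · have h1 := hch.1
      simp only [e0] at h1
      rw [hj']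
      exact h1
    · have h1 := hch.2
      simp only [e0] at h1
      rw [hj']
      exact h1
  have hUcard : U.card ≤ 4 * t + 2 := by
    calc U.card ≤ _ := Finset.card_le_card hUsub
      _ ≤ _ := Finset.card_image_le
      _ = D.card * (2 * t) := by
        rw [Finset.card_product, Int.card_Ico]
        congr 1
        omega
      _ ≤ 2 * (2 * t) := Nat.mul_le_mul_right _ hDcard
      _ ≤ 4 * t + 2 := by omega
  have hset : {x : Tor k N | ∃ j : ℤ, |j| ≤ t ∧
      ¬ ((x i₀ + (j : ZMod N)).val < L ↔ (x i₀).val < L)}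
      = ((Fintype.piFinset (fun i : Fin k => if i = i₀ then U else Finset.univ) :
        Finset (Fin k → ZMod N)) : Set (Fin k → ZMod N)) := by
    ext x
    simp only [Set.mem_ofPred_eq, Finset.mem_coe, Fintype.mem_piFinset]
    constructor
    · intro hx i
      by_cases hi : i = i₀
      · rw [if_pos hi, hi, hU]
        simp only [Finset.mem_filter, Finset.mem_univ, true_and]
        exact hx
      · rw [if_neg hi]
        exact Finset.mem_univ _
    · intro hx
      have h1 := hx i₀
      rw [if_pos rfl, hU] at h1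
      simp only [Finset.mem_filter, Finset.mem_univ, true_and] at h1
      exact h1
  rw [hset, Set.ncard_coe_finset, Fintype.card_piFinset,
    ← Finset.mul_prod_erase Finset.univ _ (Finset.mem_univ i₀)]
  have hprod : ∏ i ∈ Finset.univ.erase i₀, (if i = i₀ then U else Finset.univ).card
      = N ^ (k - 1) := by
    have h1 : ∀ i ∈ Finset.univ.erase i₀, (if i = i₀ then U else Finset.univ).card = N := by
      intro i hi
      rw [if_neg (Finset.ne_of_mem_erase hi), Finset.card_univ, ZMod.card]
    rw [Finset.prod_congr rfl h1, Finset.prod_const, Finset.card_erase_of_mem (Finset.mem_univ _),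
      Finset.card_univ, Fintype.card_fin]
  rw [hprod, if_pos rfl]
  exact Nat.mul_le_mul_right _ hUcard

end Pool.Agent.H20.TC
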