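import Mathlib
import Pool.Agent.H43.TC.Targets

set_option autoImplicit false

namespace Pool.Agent.H20.TC

open Pool.Agent.H43.TC

theorem hom : T_HOM := by
  intro G H _ _ k s π c b t
  induction t with
  | zero => intro x; rfl
  | succ t ih =>
    intro x
    have h : ∀ i : Fin k, walks s (fun y => c (π y)) b t (x + s i)
        + walks s (fun y => c (π y)) b t (x - s i)
        = walks (fun i => π (s i)) c b t (π x + π (s i))
          + walks (fun i => π (s i)) c b t (π x - π (s i)) := by
      intro i
      rw [ih, ih, map_add, map_sub]
    show (if c (π x) = b then ∑ i : Fin k, (walks s (fun y => c (π y)) b t (x + s i)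
        + walks s (fun y => c (π y)) b t (x - s i)) else 0) = _
    rw [Finset.sum_congr rfl (fun i _ => h i)]
    rfl

end Pool.Agent.H20.TC
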