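import Mathlib
import Pool.Agent.H43.TC.Targets

set_option autoImplicit false

namespace Pool.Agent.H20.TC

open Pool.Agent.H43.TC

theorem avg : T_AVG := by
  classical
  intro G H _ _ _ _ π hπ f
  have hc : ∀ y : H, (Finset.univ.filter (fun x : G => π x = y)).card
      = (Finset.univ.filter (fun x : G => π x = 0)).card := by
    intro y
    obtain ⟨a, ha⟩ := hπ y
    refine Finset.card_bij (fun x _ => x - a) ?_ ?_ ?_
    · intro x hx
      simp only [Finset.mem_filter, Finset.mem_univ, true_and] at hx ⊢
      rw [map_sub, hx, ha, sub_self]
    · intro x _ x' _ h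
      exact sub_left_injective h
    · intro z hz
      simp only [Finset.mem_filter, Finset.mem_univ, true_and] at hz
      refine ⟨z + a, ?_, by simp⟩
      simp only [Finset.mem_filter, Finset.mem_univ, true_and]
      rw [map_add, hz, ha, zero_add]
  have h1 : ∑ x : G, f (π x)
      = (Finset.univ.filter (fun x : G => π x = 0)).card * ∑ y, f y := by
    rw [← Finset.sum_fiberwise_of_maps_to (s := Finset.univ) (t := Finset.univ)
      (g := fun x : G => π x) (fun x _ => Finset.mem_univ _)]
    rw [Finset.mul_sum]
    refine Finset.sum_congr rfl fun y _ => ?_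
    have h2 : ∀ x ∈ Finset.univ.filter (fun x : G => π x = y), f (π x) = f y := by
      intro x hx
      simp only [Finset.mem_filter, Finset.mem_univ, true_and] at hx
      rw [hx]
    rw [Finset.sum_congr rfl h2, Finset.sum_const, hc y, smul_eq_mul]
  have h3 : Fintype.card G
      = Fintype.card H * (Finset.univ.filter (fun x : G => π x = 0)).card := by
    rw [← Finset.card_univ (α := G), Finset.card_eq_sum_card_fiberwise (s := Finset.univ)
      (t := Finset.univ) (f := fun x : G => π x) (fun x _ => Finset.mem_coe.2 (Finset.mem_univ _))]
    rw [Finset.sum_congr rfl (fun y _ => hc y), Finset.sum_const, Finset.card_univ,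
      smul_eq_mul]
  rw [h1, h3]
  ring

end Pool.Agent.H20.TC
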